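import Pool.Agent.Q64.VP.Stm

/-! Project VP, backup of job INT. -/

set_option autoImplicit false

open MeasureTheory Filter Topology Set Metric
open scoped ENNReal NNReal ContDiff Laplacian

namespace Pool.Agent.Q54.VP

open Pool.Agent.Q64.VP

theorem meas_cb {N : ℕ} (σ : Measure (E N)) [IsFiniteMeasure σ] :
    Measurable (fun p : E N × ℝ => σ (closedBall p.1 p.2)) := by
  have hs : MeasurableSet {q : (E N × ℝ) × E N | dist q.2 q.1.1 ≤ q.1.2} :=
    (isClosed_le (by fun_prop) (by fun_prop)).measurableSet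
  exact measurable_measure_prodMk_left hs

theorem lint_cb {N : ℕ} (σ : Measure (E N)) [IsFiniteMeasure σ] (s : ℝ) :
    ∫⁻ x, σ (closedBall x s) = σ univ * volume (closedBall (0 : E N) s) := by
  have h1 : ∀ x : E N, σ (closedBall x s) = ∫⁻ y, (closedBall x s).indicator 1 y ∂σ := fun x => by
    rw [lintegral_indicator_one measurableSet_closedBall]
  have hs : MeasurableSet {q : E N × E N | dist q.2 q.1 ≤ s} :=
    (isClosed_le (by fun_prop) (by fun_prop)).measurableSet
  have hm : Measurable (fun q : E N × E N => (closedBall q.1 s).indicator (1 : E N → ℝ≥0∞) q.2) := by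
    have : (fun q : E N × E N => (closedBall q.1 s).indicator (1 : E N → ℝ≥0∞) q.2) =
        {q : E N × E N | dist q.2 q.1 ≤ s}.indicator 1 := by
      funext q
      simp only [indicator, mem_closedBall, mem_setOf_eq, Pi.one_apply]
    rw [this]
    exact measurable_one.indicator hs
  calc ∫⁻ x, σ (closedBall x s) = ∫⁻ x, ∫⁻ y, (closedBall x s).indicator 1 y ∂σ := by
        exact lintegral_congr h1
    _ = ∫⁻ y, ∫⁻ x, (closedBall x s).indicator 1 y ∂volume ∂σ :=
        lintegral_lintegral_swap hm.aemeasurable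
    _ = ∫⁻ _, volume (closedBall (0 : E N) s) ∂σ := by
        refine lintegral_congr (fun y => ?_)
        have : ∀ x : E N, (closedBall x s).indicator (1 : E N → ℝ≥0∞) y =
            (closedBall y s).indicator 1 x := by
          intro x
          simp only [indicator, mem_closedBall, Pi.one_apply, dist_comm]
        rw [lintegral_congr this, lintegral_indicator_one measurableSet_closedBall]
        rw [Measure.addHaar_closedBall_center]
    _ = _ := by rw [lintegral_const, mul_comm]

theorem t_INT : S_INT := by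
  intro N hN D σ hσ
  unfold P
  have hm : Measurable (fun p : E N × ℝ => σ (closedBall p.1 p.2) * ENNReal.ofReal (p.2 ^ (1 - (N : ℝ)))) :=
    (meas_cb σ).mul (ENNReal.measurable_ofReal.comp (measurable_snd.pow_const _))
  rw [lintegral_lintegral_swap hm.aemeasurable]
  have h1 : ∀ s ∈ Ioo 0 D, ∫⁻ x : E N, σ (closedBall x s) * ENNReal.ofReal (s ^ (1 - (N : ℝ))) ≤
      σ univ * (ENNReal.ofReal D * volume (ball (0 : E N) 1)) := by
    intro s hs
    rw [lintegral_mul_const' _ _ ENNReal.ofReal_ne_top, lint_cb, Measure.addHaar_closedBall _ _ hs.1.le,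
      finrank_euclideanSpace_fin]
    have h2 : ENNReal.ofReal (s ^ N) * ENNReal.ofReal (s ^ (1 - (N : ℝ))) = ENNReal.ofReal s := by
      rw [← ENNReal.ofReal_mul (pow_nonneg hs.1.le _), ← Real.rpow_natCast, ← Real.rpow_add hs.1]
      simp
    calc σ univ * (ENNReal.ofReal (s ^ N) * volume (ball (0 : E N) 1)) * ENNReal.ofReal (s ^ (1 - (N : ℝ)))
        = σ univ * ((ENNReal.ofReal (s ^ N) * ENNReal.ofReal (s ^ (1 - (N : ℝ)))) *
            volume (ball (0 : E N) 1)) := by ring
      _ = σ univ * (ENNReal.ofReal s * volume (ball (0 : E N) 1)) := by rw [h2]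
      _ ≤ _ := mul_le_mul' le_rfl (mul_le_mul' (ENNReal.ofReal_le_ofReal hs.2.le) le_rfl)
  calc ∫⁻ s in Ioo 0 D, ∫⁻ x : E N, σ (closedBall x s) * ENNReal.ofReal (s ^ (1 - (N : ℝ)))
      ≤ ∫⁻ _ in Ioo 0 D, σ univ * (ENNReal.ofReal D * volume (ball (0 : E N) 1)) :=
        setLIntegral_mono' measurableSet_Ioo h1
    _ = σ univ * (ENNReal.ofReal D * volume (ball (0 : E N) 1)) * volume (Ioo 0 D) :=
        setLIntegral_const _ _
    _ < ⊤ := by
        refine ENNReal.mul_lt_top (ENNReal.mul_lt_top (measure_lt_top σ _)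
          (ENNReal.mul_lt_top ENNReal.ofReal_lt_top measure_ball_lt_top)) ?_
        rw [Real.volume_Ioo]
        exact ENNReal.ofReal_lt_top

end Pool.Agent.Q54.VP
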